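import Pool.Agent.Q54.EM.StmD

/-!
# Project EM: THA (Theorem A for the abstract flow)
-/

set_option autoImplicit false

namespace Pool.Agent.Q146.EM

open Pool.Agent.Q54.EM Finset Filter Topology

theorem tha : S_RMO → S_FF → S_THA := by
  intro hR hF k q0 e l h y g K lm o R3 H F T O fl t ht
  have mono : ∀ s, t ≤ s → F t - y t * ff (1 - lm t) ≤ F s - y s * ff (1 - lm s) := by
    intro s hs
    have hcont : ContinuousOn (fun s => F s - y s * ff (1 - lm s)) (Set.Icc t s) := by
      intro u hu
      obtain ⟨d, hd, -⟩ := hR k q0 e l h y g K lm o R3 H F T O fl u (ht.trans hu.1)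
      exact hd.continuousAt.continuousWithinAt
    have hm : MonotoneOn (fun s => F s - y s * ff (1 - lm s)) (Set.Icc t s) := by
      apply monotoneOn_of_deriv_nonneg (convex_Icc t s) hcont
      · intro u hu
        rw [interior_Icc] at hu
        obtain ⟨d, hd, -⟩ := hR k q0 e l h y g K lm o R3 H F T O fl u (ht.trans hu.1.le)
        exact hd.differentiableAt.differentiableWithinAt
      · intro u hu
        rw [interior_Icc] at hu
        obtain ⟨d, hd, -, h0⟩ := hR k q0 e l h y g K lm o R3 H F T O fl u (ht.trans hu.1.le)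
        rw [hd.deriv]
        exact h0
    exact hm (Set.left_mem_Icc.2 hs) (Set.right_mem_Icc.2 hs) hs
  have up : ∀ s, t ≤ s → F t - y t * ff (1 - lm t) ≤ F s := by
    intro s hs
    have hs0 : 0 ≤ s := ht.trans hs
    have h1 := mono s hs
    have hq : 0 < 1 - lm s := by linarith [fl.lm1 s hs0]
    have hq1 : 1 - lm s < 1 := by linarith [fl.lm0 s hs0]
    obtain ⟨-, hf1, -⟩ := hF (1 - lm s) hq hq1
    have hy : 0 ≤ y s := by linarith [fl.qy s hs0, fl.o0 s hs0]
    have : 0 ≤ y s * ff (1 - lm s) := mul_nonneg hy (by linarith)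
    linarith
  exact ge_of_tendsto fl.Fl (eventually_atTop.2 ⟨t, up⟩)

end Pool.Agent.Q146.EM
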