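import Pool.Agent.Q54.EM.StmD

/-!
# Project EM: PLF (persistence for a law)
-/

set_option autoImplicit false

namespace Pool.Agent.Q146.EM

open Pool.Agent.Q54.EM Finset Filter Topology

theorem plf : S_FLW → S_FL3 → S_PLF := by
  intro hW hL ι _ p x k l hk hlaw hm0 hm1 hKK hva q e y0 c nu hq he hy0 hc hc2 hq2 hqc hnu hce h1 h2
  obtain ⟨h, y, g, K, lm, o, R3, H, F, T, O, fl, hF0, hyy⟩ := hW ι p x k l hk hlaw hm0 hm1 hKK hva
  subst hq
  subst he
  rw [← hyy] at hy0
  subst hy0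
  have := hL k (1 - lam k p x) (l / hh k p x - 1) l h y g K lm o R3 H F T O fl c nu hc hc2 hq2 hqc hnu
    hce h1 h2
  rw [hF0] at this
  exact this

end Pool.Agent.Q146.EM
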